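import Pool.Agent.Work.MP_2d87f2_co.Extra

/-!
# Net graphs of a vertex-transitive graph with arbitrarily small Cheeger constant

The graph is the Diestel-Leader graph `DL(16, 17)`. The definitions `cheeger`, `IsNet`, `netGraph`
are in `Pool/Agent/Work/MP_2d87f2_co/Defs.lean`, `vertexCheeger` is in `Extra.lean` of that folder.
-/

set_option autoImplicit false

open Pool.Agent.Work.MP_2d87f2_co

namespace Pool.Agent.Results.MP_2d87f2_co.NetsLoseExpansion

/-- `G` is an infinite connected vertex-transitive graph all of whose vertices have degree `D`. -/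
structure IsInfiniteTransitive {V : Type} (G : SimpleGraph V) (D : ℕ) : Prop where
  infinite : Infinite V
  connected : G.Connected
  locallyFinite : ∀ v : V, (G.neighborSet v).Finite
  degree : ∀ v : V, (G.neighborSet v).ncard = D
  transitive : ∀ u v : V, ∃ φ : G ≃g G, φ u = v

/-- The first part is the negation of Q2. The second part is stronger: one vertex-transitive graph
has Cheeger constant at least `1`, while for all large even `k` it has a `k`-net graph with
arbitrarily small Cheeger constant, and the same holds for the vertex versions of the Cheeger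
constants. -/
theorem result :
    (∃ D : ℕ, ∀ C : ℝ, 0 < C → ∃ (V : Type) (G : SimpleGraph V) (k : ℕ) (S : Set V),
      IsInfiniteTransitive G D ∧ 1 ≤ k ∧ IsNet G k S ∧
        cheeger (netGraph G k S) < C * cheeger G) ∧
    ∃ (V : Type) (G : SimpleGraph V), IsInfiniteTransitive G 33 ∧
      1 ≤ cheeger G ∧ 1 / 33 ≤ vertexCheeger G ∧
      ∀ ε : ℝ, 0 < ε → ∃ K₀ : ℕ, ∀ K : ℕ, K₀ ≤ K → ∃ S : Set V, IsNet G (2 * K) S ∧
        (∀ s : S, ((netGraph G (2 * K) S).neighborSet s).Finite) ∧
        cheeger (netGraph G (2 * K) S) < ε ∧ vertexCheeger (netGraph G (2 * K) S) < ε := by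
  have hG : IsInfiniteTransitive (DL 16 17) 33 :=
    { infinite := infinite (by norm_num) (by norm_num)
      connected := connected (by norm_num) (by norm_num)
      locallyFinite := neighborSet_finite
      degree := neighborSet_ncard
      transitive := transitive (by norm_num) (by norm_num) }
  have hc : 1 ≤ cheeger (DL 16 17) := one_le_cheeger (by norm_num)
  refine ⟨⟨33, fun C hC => ?_⟩, Vtx 16 17, DL 16 17, hG, hc, ?_, fun ε hε => ?_⟩
  · obtain ⟨K₀, h1, h2⟩ := exists_net_lt C hC
    obtain ⟨S, hS1, hS2⟩ := h2 K₀ (le_refl _)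
    refine ⟨Vtx 16 17, DL 16 17, 2 * K₀, S, hG, by omega, hS1, lt_of_lt_of_le hS2 ?_⟩
    exact le_mul_of_one_le_right hC.le hc
  · have : Nonempty (Vtx 16 17) := hG.connected.nonempty
    have h := cheeger_le_mul_vertexCheeger (DL 16 17) 33 hG.locallyFinite
      (fun v => (hG.degree v).le)
    push_cast at h
    linarith
  · obtain ⟨K₀, h1, h2⟩ := exists_net_lt ε hε
    refine ⟨K₀, fun K hK => ?_⟩
    obtain ⟨S, hS1, hS2⟩ := h2 K hK
    have hlf := netGraph_locallyFinite (DL 16 17) hG.connected hG.locallyFinite (2 * K) S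
    have hne : Nonempty S := by
      by_contra hcon
      rw [not_nonempty_iff] at hcon
      have hbase := (hS1.2 (y := {base (by norm_num) (by norm_num) 0}) (by
        rintro u hu v hv huv
        rw [Set.mem_singleton_iff] at hu hv
        exact absurd (hu.trans hv.symm) huv) (fun x hx => (hcon.false ⟨x, hx⟩).elim))
        (Set.mem_singleton _)
      exact hcon.false ⟨_, hbase⟩
    exact ⟨S, hS1, hlf, hS2, lt_of_le_of_lt (vertexCheeger_le_cheeger _ hlf) hS2⟩

end Pool.Agent.Results.MP_2d87f2_co.NetsLoseExpansion
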